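import Pool.Agent.Helper16.AZ.Stmts

open Finset Filter MeasureTheory Topology
open scoped ComplexConjugate InnerProductSpace

namespace Pool.Agent.Helper16.AZ

theorem mod_norm_le {d : ℕ} {A : Op d} (hA : A ∈ unitary (Op d)) : ‖A‖ ≤ 1 := by
  refine ContinuousLinearMap.opNorm_le_bound _ zero_le_one fun v => ?_
  rw [unitary_norm hA v, one_mul]

theorem mod_co {r d : ℕ} (β : T r) (φ : T r → Op d) (t ω : ℝ) (hφ : ∀ θ, φ θ ∈ unitary (Op d))
    (h : ∀ θ θ' : T r, dist θ θ' ≤ t → ‖φ θ - φ θ'‖ ≤ ω) (k : ℕ) (θ θ' : T r)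
    (hd : dist θ θ' ≤ t) : ‖co β φ k θ - co β φ k θ'‖ ≤ k * ω := by
  induction k with
  | zero => simp
  | succ k ih =>
    have h1 : co β φ (k + 1) θ - co β φ (k + 1) θ' =
        (φ (θ + k • β) - φ (θ' + k • β)) * co β φ k θ +
        φ (θ' + k • β) * (co β φ k θ - co β φ k θ') := by
      rw [co_succ, co_succ, sub_mul, mul_sub]
      abel
    have h2 : ‖φ (θ + k • β) - φ (θ' + k • β)‖ ≤ ω := by
      apply h
      rw [dist_add_right]
      exact hd
    have h3 := mod_norm_le (co_unitary β φ hφ k θ)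
    have h4 := mod_norm_le (hφ (θ' + k • β))
    rw [h1]
    refine (norm_add_le _ _).trans ?_
    have h5 : ‖(φ (θ + k • β) - φ (θ' + k • β)) * co β φ k θ‖ ≤ ω := by
      refine (norm_mul_le _ _).trans ?_
      nlinarith [norm_nonneg (φ (θ + k • β) - φ (θ' + k • β)), norm_nonneg (co β φ k θ)]
    have h6 : ‖φ (θ' + k • β) * (co β φ k θ - co β φ k θ')‖ ≤ k * ω := by
      refine (norm_mul_le _ _).trans ?_
      nlinarith [norm_nonneg (φ (θ' + k • β)), norm_nonneg (co β φ k θ - co β φ k θ')]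
    push_cast
    linarith

theorem st_MOD : ST_MOD := by
  intro r d β φ c t ω ω' K k k' hφ hc h hk hk' θ s hs
  have ht : 0 ≤ t := (norm_nonneg s).trans hs
  have h0 := h θ θ (by simpa using ht)
  have hω : 0 ≤ ω := (norm_nonneg _).trans h0.1
  have hd : dist (θ + s) θ ≤ t := by
    rw [dist_eq_norm]
    simpa using hs
  have key : ∀ k ≤ K, ‖Wk β φ k c (θ + s) - Wk β φ k c θ‖ ≤ K * ω + ω' := by
    intro k hk
    have h1 : Wk β φ k c (θ + s) - Wk β φ k c θ =
        (star (co β φ k (θ + s) - co β φ k θ)) (c (θ + s + k • β)) +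
        (star (co β φ k θ)) (c (θ + s + k • β) - c (θ + k • β)) := by
      unfold Wk
      have h0 : star (co β φ k (θ + s) - co β φ k θ) =
          star (co β φ k (θ + s)) - star (co β φ k θ) := by
        simp only [ContinuousLinearMap.star_eq_adjoint, map_sub]
      rw [h0, _root_.sub_apply, map_sub]
      abel
    rw [h1]
    refine (norm_add_le _ _).trans ?_
    have h2 : ‖(star (co β φ k (θ + s) - co β φ k θ)) (c (θ + s + k • β))‖ ≤ K * ω := by
      refine (ContinuousLinearMap.le_opNorm _ _).trans ?_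
      rw [ContinuousLinearMap.star_eq_adjoint, LinearIsometryEquiv.norm_map]
      have h3 := mod_co β φ t ω hφ.2 (fun a b hab => (h a b hab).1) k (θ + s) θ hd
      have h4 : (k : ℝ) * ω ≤ K * ω := mul_le_mul_of_nonneg_right (by exact_mod_cast hk) hω
      have h5 := hc (θ + s + k • β)
      nlinarith [norm_nonneg (co β φ k (θ + s) - co β φ k θ), norm_nonneg (c (θ + s + k • β))]
    have h3 : ‖(star (co β φ k θ)) (c (θ + s + k • β) - c (θ + k • β))‖ ≤ ω' := by
      rw [unitary_norm (unitary_star (co_unitary β φ hφ.2 k θ))]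
      refine (h _ _ ?_).2
      rw [dist_add_right]
      exact hd
    linarith
  have e1 := key k hk
  have e2 := key k' hk'
  have n1 : ‖Wk β φ k' c (θ + s)‖ ≤ 1 := by
    rw [Wk_norm β φ c hφ.2]; exact hc _
  have n2 : ‖Wk β φ k c θ‖ ≤ 1 := by
    rw [Wk_norm β φ c hφ.2]; exact hc _
  have h6 : EE β φ c k k' (θ + s) - EE β φ c k k' θ =
      inner ℂ (Wk β φ k c (θ + s) - Wk β φ k c θ) (Wk β φ k' c (θ + s)) +
      inner ℂ (Wk β φ k c θ) (Wk β φ k' c (θ + s) - Wk β φ k' c θ) := by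
    unfold EE
    rw [inner_sub_left, inner_sub_right]
    ring
  rw [h6]
  refine (norm_add_le _ _).trans ?_
  have h7 := norm_inner_le_norm (𝕜 := ℂ) (Wk β φ k c (θ + s) - Wk β φ k c θ)
    (Wk β φ k' c (θ + s))
  have h8 := norm_inner_le_norm (𝕜 := ℂ) (Wk β φ k c θ)
    (Wk β φ k' c (θ + s) - Wk β φ k' c θ)
  have h9 := norm_nonneg (Wk β φ k c (θ + s) - Wk β φ k c θ)
  have h10 := norm_nonneg (Wk β φ k' c (θ + s) - Wk β φ k' c θ)
  have h11 := norm_nonneg (Wk β φ k' c (θ + s))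
  have h12 := norm_nonneg (Wk β φ k c θ)
  nlinarith

end Pool.Agent.Helper16.AZ
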