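import Pool.Agent.Helper16.AZ.Stmts

open Finset Filter MeasureTheory Topology
open scoped ComplexConjugate InnerProductSpace

namespace Pool.Agent.Helper16.AZ

theorem st_WPW : ST_WPW := by
  intro r d β φ W c f hφ hW hc hf
  have h1 : ∀ k : ℕ, ∀ᵐ θ ∂(mm r), ((W ^ k) f : T r → E d) θ = Wk β φ k c θ := by
    intro k
    induction k with
    | zero =>
      filter_upwards [hf] with θ hθ
      rw [Wk_zero, pow_zero]
      exact hθ
    | succ k ih =>
      have h2 := hW ((W ^ k) f)
      have h3 : ∀ᵐ θ ∂(mm r), ((W ^ k) f : T r → E d) (θ + β) = Wk β φ k c (θ + β) :=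
        (measurePreserving_add_right (mm r) β).quasiMeasurePreserving.ae ih
      filter_upwards [h2, h3] with θ ha hb
      have h4 : (W ^ (k + 1)) f = W ((W ^ k) f) := by
        rw [pow_succ']
        rfl
      rw [h4, ha, hb, Wk_comp, Wk_one]
  refine ⟨h1, fun k k' => ?_⟩
  rw [MeasureTheory.L2.inner_def]
  apply integral_congr_ae
  filter_upwards [h1 k, h1 k'] with θ ha hb
  rw [ha, hb]
  rfl

end Pool.Agent.Helper16.AZ
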